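import Pool.Agent.Y315.RE.Env

/-!
# Which sub-envelopes bound the Riesz measure of a lower envelope

Let `Ω ⊆ ℝⁿ`, `n ≥ 1`, be a nonempty domain, `m ≥ 2`, and let `F` be any family of nonempty sets of
indices. The inequality

  `μ[min_j w_j] ≥ ⋀_{S ∈ F} μ[min_{j ∈ S} w_j]`

holds for all δ-subharmonic functions `w_1, …, w_m` in `Ω` if and only if any two indices lie in
a common member of `F`. The family of all two-element sets is Q1 of the problem (every `n ≥ 3`,
every domain, every `m ≥ 2`): the answer is yes.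
-/

set_option autoImplicit false

open MeasureTheory Set Filter Topology Metric

namespace Pool.Agent.Results.MP_730047_an.EnvelopeFamilies

open Pool.Agent.Helper486.TP

/-- Minima of δ-subharmonic functions over nonempty index sets have Riesz measures, and for every
family `F` of nonempty index sets the following are equivalent: (i) for all δ-subharmonic
`w_1, …, w_m` in `Ω`, the Riesz measures `ρ S` of `min_{j ∈ S} w_j`, `S ∈ F`, have a greatest lower
bound, and the Riesz measure `μ` of `min_j w_j` is at least this greatest lower bound; (ii) any two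
indices `j, k` (equal or not) lie in a common member of `F`. -/
theorem result (n : ℕ) (hn : 0 < n) (Ω : Set (E n)) (hΩ : IsOpen Ω) (hΩc : IsPreconnected Ω)
    (hne : Ω.Nonempty) (m : ℕ) (hm : 2 ≤ m) (c : ℝ) (hc : 0 < c) :
    (∀ w : Fin m → E n → EReal, (∀ j, DeltaSubharmonic Ω (w j)) →
      ∀ S : Finset (Fin m), S.Nonempty →
        ∃ ρ : SignedRadon Ω, IsRiesz c Ω (fun x => ⨅ j ∈ S, w j x) ρ) ∧
    ∀ F : Set (Finset (Fin m)), (∀ S ∈ F, S.Nonempty) →
      ((∀ w : Fin m → E n → EReal, (∀ j, DeltaSubharmonic Ω (w j)) →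
        ∀ (μ : SignedRadon Ω) (ρ : Finset (Fin m) → SignedRadon Ω),
          IsRiesz c Ω (fun x => ⨅ j, w j x) μ →
          (∀ S ∈ F, IsRiesz c Ω (fun x => ⨅ j ∈ S, w j x) (ρ S)) →
          (∃ I, IsGLB {κ | ∃ S ∈ F, κ = ρ S} I) ∧
            ∀ I, IsGLB {κ | ∃ S ∈ F, κ = ρ S} I → I ≤ μ) ↔
        ∀ j k : Fin m, ∃ S ∈ F, j ∈ S ∧ k ∈ S) :=
  ⟨fun _ hw _ hS => Pool.Agent.Y315.RE.part_exists hn hΩ hΩc hw hc hS,
    fun F hF => Pool.Agent.Y315.RE.envelope_iff hn hΩ hΩc hne hm hc F hF⟩

end Pool.Agent.Results.MP_730047_an.EnvelopeFamilies
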